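import Pool.Agent.TH662.CP.Block
import Pool.Agent.H362R2.RQ.Fin

set_option autoImplicit false

/-! CP: gaps between consecutive primes in one residue class and one Bohr cell. -/

open Finset Filter Topology

namespace Pool.Agent.TH662.CP

open Pool.Agent.H362R2.RQ
open Pool.Agent.H256R2.SC (ff)
open Pool.Agent.H312R2.RG.C3 (ff_tendsto ff_lower ff_upper ff_small)

/-- the cell of a number modulo `Q` and with respect to the rotations `α k` -/
noncomputable def cellF (Q d N : ℕ) (hN : 1 ≤ N) (α : Fin d → ℝ) (t : ℕ) : (ZMod Q)ˣ × (Fin d → Fin N) :=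
  letI := Classical.propDecidable
  (if h : t.Coprime Q then ZMod.unitOfCoprime t h else 1,
    fun k => ⟨⌊(N : ℝ) * Int.fract (α k * t)⌋₊, by
      have hN0 : (0 : ℝ) < N := by exact_mod_cast hN
      have h1 : (N : ℝ) * Int.fract (α k * t) < N := by
        calc (N : ℝ) * Int.fract (α k * t) < N * 1 := mul_lt_mul_of_pos_left (Int.fract_lt_one _) hN0
          _ = N := mul_one _
      exact (Nat.floor_lt (mul_nonneg hN0.le (Int.fract_nonneg _))).2 h1⟩)

theorem cellF_mod {Q d N : ℕ} {hN : 1 ≤ N} {α : Fin d → ℝ} {t t' : ℕ} (ht : t.Coprime Q) (ht' : t'.Coprime Q)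
    (h : cellF Q d N hN α t = cellF Q d N hN α t') : t ≡ t' [MOD Q] := by
  have h1 := congrArg Prod.fst h
  simp only [cellF, dif_pos ht, dif_pos ht'] at h1
  have h2 := congrArg (fun u : (ZMod Q)ˣ => (u : ZMod Q)) h1
  simp only [ZMod.coe_unitOfCoprime] at h2
  exact (ZMod.natCast_eq_natCast_iff t t' Q).1 h2

theorem cellF_rot {Q d N : ℕ} {hN : 1 ≤ N} {α : Fin d → ℝ} {t t' : ℕ}
    (h : cellF Q d N hN α t = cellF Q d N hN α t') (k : Fin d) :
    ∃ w : ℤ, |α k * ((t : ℝ) - t') - w| ≤ 1 / N := by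
  have hN0 : (0 : ℝ) < N := by exact_mod_cast hN
  have h1 := congrFun (congrArg Prod.snd h) k
  simp only [cellF, Fin.mk.injEq] at h1
  refine ⟨⌊α k * t⌋ - ⌊α k * t'⌋, ?_⟩
  have e1 : α k * ((t : ℝ) - t') - ((⌊α k * t⌋ - ⌊α k * t'⌋ : ℤ) : ℝ) =
      Int.fract (α k * t) - Int.fract (α k * t') := by
    rw [Int.fract, Int.fract]; push_cast; ring
  rw [e1, le_div_iff₀ hN0, ← abs_of_pos hN0, ← abs_mul, sub_mul, abs_le]
  set u := Int.fract (α k * t) * N with hu
  set v := Int.fract (α k * t') * N with hv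
  have hu0 : 0 ≤ u := mul_nonneg (Int.fract_nonneg _) hN0.le
  have hv0 : 0 ≤ v := mul_nonneg (Int.fract_nonneg _) hN0.le
  rw [mul_comm (N : ℝ), mul_comm (N : ℝ), ← hu, ← hv] at h1
  have h2 := Nat.floor_le hu0
  have h3 := Nat.lt_floor_add_one u
  have h4 := Nat.floor_le hv0
  have h5 := Nat.lt_floor_add_one v
  rw [h1] at h2 h3
  constructor <;> linarith

theorem card_cell (Q d N : ℕ) (hQ : 1 ≤ Q) : haveI : NeZero Q := ⟨by omega⟩
    Fintype.card ((ZMod Q)ˣ × (Fin d → Fin N)) = Q.totient * N ^ d := by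
  have : NeZero Q := ⟨by omega⟩
  rw [Fintype.card_prod, ZMod.card_units_eq_totient, Fintype.card_fun, Fintype.card_fin, Fintype.card_fin]

/-- blocks of consecutive primes between record gaps, with all differences divisible by `Q` and in a Bohr set -/
theorem final_of (h : StRQ) : ∀ m : ℕ, ∃ K : ℕ, ∃ c : ℝ, 0 < c ∧
    ∀ q a : ℕ, Squarefree q → a.Coprime q → ∃ X0 : ℝ, ∀ X : ℝ, X0 ≤ X →
    ∀ (Q d N : ℕ) (α : Fin d → ℝ), 1 ≤ Q → 1 ≤ N →
    (q.totient : ℝ) * Q.totient * N ^ d * Real.log (Real.log X) ≤ c * ff X →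
    ∃ J : Finset ℕ, c * X ^ (9 / 10 : ℝ) ≤ J.card ∧ ∀ j ∈ J, 1 ≤ j ∧ X < Nat.nth Nat.Prime j ∧ ∃ r : ℕ,
      m ≤ r + 1 ∧ r + 1 ≤ K ∧ (Nat.nth Nat.Prime (j + r) : ℝ) ≤ 4 * X ∧
      c * ff X ≤ (Nat.nth Nat.Prime j : ℝ) - Nat.nth Nat.Prime (j - 1) ∧
      c * ff X ≤ (Nat.nth Nat.Prime (j + r + 1) : ℝ) - Nat.nth Nat.Prime (j + r) ∧
      (∀ i ≤ r, Nat.nth Nat.Prime (j + i) ≡ a [MOD q]) ∧
      ∀ i ≤ r, ∀ i' ≤ r, Nat.nth Nat.Prime (j + i) ≡ Nat.nth Nat.Prime (j + i') [MOD Q] ∧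
        ∀ k, ∃ w : ℤ, |α k * ((Nat.nth Nat.Prime (j + i) : ℝ) - Nat.nth Nat.Prime (j + i')) - w| ≤ 1 / N := by
  classical
  intro m
  obtain ⟨K, b, c, hb, hc, hmain⟩ := block_of h m
  obtain ⟨c', hc'⟩ : ∃ c' : ℝ, c' = min (min c (b / 2)) (1 / (K + 1)) := ⟨_, rfl⟩
  have hc'pos : 0 < c' := by rw [hc']; positivity
  have hc'c : c' ≤ c := by rw [hc']; exact (min_le_left _ _).trans (min_le_left _ _)
  have hc'b : c' ≤ b / 2 := by rw [hc']; exact (min_le_left _ _).trans (min_le_right _ _)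
  have hc'K : c' * (K + 1) ≤ 1 := by
    have h1 : c' ≤ 1 / (K + 1) := by rw [hc']; exact min_le_right _ _
    rwa [le_div_iff₀ (by positivity)] at h1
  refine ⟨K, c', hc'pos, ?_⟩
  intro q a hqsf haq
  have hq0 : 0 < q := Nat.pos_of_ne_zero hqsf.ne_zero
  obtain ⟨X1, hX1⟩ := hmain q a hqsf haq
  have htend : Tendsto (fun X : ℝ => b * ff X) atTop atTop := ff_tendsto.const_mul_atTop hb
  have hllt : Tendsto (fun X : ℝ => Real.log (Real.log X)) atTop atTop :=
    Real.tendsto_log_atTop.comp Real.tendsto_log_atTop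
  rw [← Filter.eventually_atTop]
  filter_upwards [eventually_ge_atTop X1, ff_tendsto.eventually_gt_atTop 0, eventually_ge_atTop (3 : ℝ),
    htend.eventually_ge_atTop 3, hllt.eventually_ge_atTop 1, ff_small (2 * b) (by positivity)]
    with X hXX1 hffpos hX3 hHX hll hsm
  intro Q d N α hQ hN hcond
  have : NeZero Q := ⟨by omega⟩
  have hφq : (1 : ℝ) ≤ q.totient := by exact_mod_cast Nat.totient_pos.2 hq0
  have hφQ : (1 : ℝ) ≤ Q.totient := by exact_mod_cast Nat.totient_pos.2 hQ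
  have hNd : (1 : ℝ) ≤ (N : ℝ) ^ d := one_le_pow₀ (by exact_mod_cast hN)
  have hcard : (Fintype.card ((ZMod Q)ˣ × (Fin d → Fin N)) : ℝ) * q.totient * Real.log (Real.log X) ≤ c * ff X := by
    rw [card_cell Q d N hQ]
    push_cast
    calc (Q.totient : ℝ) * N ^ d * q.totient * Real.log (Real.log X)
        = (q.totient : ℝ) * Q.totient * N ^ d * Real.log (Real.log X) := by ring
      _ ≤ c' * ff X := hcond
      _ ≤ c * ff X := mul_le_mul_of_nonneg_right hc'c hffpos.le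
  obtain ⟨J, hJcard, hJ⟩ := hX1 X hXX1 _ (cellF Q d N hN α) hcard
  have hQsmall : ∀ t : ℕ, t.Prime → b * ff X < t → t.Coprime Q := by
    intro t ht htH
    rw [Nat.Prime.coprime_iff_not_dvd ht]
    intro hdvd
    have h1 : t.totient ≤ Q.totient :=
      Nat.le_of_dvd (Nat.totient_pos.2 hQ) (Nat.totient_dvd_of_dvd hdvd)
    rw [Nat.totient_prime ht] at h1
    have h2 : ((t : ℝ) - 1) ≤ Q.totient := by
      have h3 : ((t - 1 : ℕ) : ℝ) ≤ Q.totient := by exact_mod_cast h1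
      rwa [Nat.cast_sub ht.one_le, Nat.cast_one] at h3
    have h3 : (Q.totient : ℝ) ≤ (q.totient : ℝ) * Q.totient * N ^ d * Real.log (Real.log X) := by
      have e1 : (Q.totient : ℝ) ≤ q.totient * Q.totient := le_mul_of_one_le_left (by linarith) hφq
      have e2 : (q.totient : ℝ) * Q.totient ≤ q.totient * Q.totient * N ^ d :=
        le_mul_of_one_le_right (by positivity) hNd
      have e3 : (q.totient : ℝ) * Q.totient * N ^ d ≤ q.totient * Q.totient * N ^ d * Real.log (Real.log X) :=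
        le_mul_of_one_le_right (by positivity) hll
      linarith
    have h4 : c' * ff X ≤ b / 2 * ff X := mul_le_mul_of_nonneg_right hc'b hffpos.le
    have h5 : b / 2 * ff X = b * ff X / 2 := by ring
    linarith
  refine ⟨J, ?_, ?_⟩
  · have h1 : c' * X ^ (9 / 10 : ℝ) ≤ c' * (K * J.card) := mul_le_mul_of_nonneg_left hJcard.le hc'pos.le
    have h2 : c' * (K * J.card) = c' * K * J.card := by ring
    have h3 : c' * K * J.card ≤ 1 * J.card := by
      apply mul_le_mul_of_nonneg_right _ (Nat.cast_nonneg _)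
      have : c' * (K + 1) = c' * K + c' := by ring
      linarith
    linarith
  · intro j hj
    obtain ⟨hj1, n, r, y, hn1, hn2, hqn, hmr, hrK, hbef, haft, hblk⟩ := hJ j hj
    have hH : c' * ff X ≤ b * ff X := by
      apply mul_le_mul_of_nonneg_right _ hffpos.le
      linarith
    refine ⟨hj1, ?_, r, hmr, hrK, ?_, ?_, ?_, ?_, ?_⟩
    · obtain ⟨t, ht, -⟩ := hblk 0 (Nat.zero_le _)
      rw [add_zero] at ht
      rw [ht]; push_cast
      have : (0 : ℝ) ≤ t := Nat.cast_nonneg _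
      linarith
    · obtain ⟨t, ht, -, -, -, ht2, -⟩ := hblk r le_rfl
      rw [ht]; push_cast
      linarith
    · obtain ⟨t, ht, -, -, ht1, ht2, -⟩ := hblk 0 (Nat.zero_le _)
      rw [add_zero] at ht
      rw [ht]; push_cast
      have h1 : (Nat.nth Nat.Prime (j - 1) : ℝ) < n := by exact_mod_cast hbef
      linarith
    · obtain ⟨t, ht, -, -, ht1, ht2, -⟩ := hblk r le_rfl
      rw [ht]; push_cast
      linarith
    · intro i hi
      obtain ⟨t, ht, -, hta, -⟩ := hblk i hi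
      rw [ht]
      have h1 : n ≡ 0 [MOD q] := (Nat.modEq_zero_iff_dvd).2 hqn
      have h2 := h1.add hta
      rwa [zero_add] at h2
    · intro i hi i' hi'
      obtain ⟨t, ht, htp, -, ht1, -, htF⟩ := hblk i hi
      obtain ⟨t', ht', htp', -, ht1', -, htF'⟩ := hblk i' hi'
      have hFF : cellF Q d N hN α t = cellF Q d N hN α t' := htF.trans htF'.symm
      rw [ht, ht']
      refine ⟨?_, ?_⟩
      · exact Nat.ModEq.add_left n (cellF_mod (hQsmall t htp ht1) (hQsmall t' htp' ht1') hFF)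
      · intro k
        obtain ⟨w, hw⟩ := cellF_rot hFF k
        refine ⟨w, ?_⟩
        have e1 : ((n + t : ℕ) : ℝ) - ((n + t' : ℕ) : ℝ) = (t : ℝ) - t' := by push_cast; ring
        rw [e1]
        exact hw

end Pool.Agent.TH662.CP
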