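import Mathlib

set_option autoImplicit false

/-! CP: from the primes of a window to consecutive primes. -/

open Finset

namespace Pool.Agent.TH662.CP

/-- The primes of `[n, n + W)` in terms of the enumeration of the primes. -/
theorem idx_of (n W : ℕ) :
    (∀ i < ((range W).filter (fun s => (n + s).Prime)).card,
      ∃ s < W, (n + s).Prime ∧ Nat.nth Nat.Prime (Nat.count Nat.Prime n + i) = n + s) ∧
    (∀ i, ((range W).filter (fun s => (n + s).Prime)).card ≤ i →
      n + W ≤ Nat.nth Nat.Prime (Nat.count Nat.Prime n + i)) ∧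
    (∀ i, i < Nat.count Nat.Prime n → Nat.nth Nat.Prime i < n) := by
  have hc : Nat.count Nat.Prime (n + W) = Nat.count Nat.Prime n +
      ((range W).filter (fun s => (n + s).Prime)).card := by
    rw [Nat.count_add, Nat.count_eq_card_filter_range (fun k => Nat.Prime (n + k))]
  refine ⟨?_, ?_, ?_⟩
  · intro i hi
    have h0 : Nat.count Nat.Prime n + i < Nat.count Nat.Prime (n + W) := by omega
    have h1 : Nat.nth Nat.Prime (Nat.count Nat.Prime n + i) < n + W :=
      Nat.nth_lt_of_lt_count h0
    have h2 : n ≤ Nat.nth Nat.Prime (Nat.count Nat.Prime n + i) :=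
      (Nat.count_le_iff_le_nth Nat.infinite_setOfPred_prime).1 (Nat.le_add_right _ _)
    have h3 : (Nat.nth Nat.Prime (Nat.count Nat.Prime n + i)).Prime := Nat.prime_nth_prime _
    refine ⟨Nat.nth Nat.Prime (Nat.count Nat.Prime n + i) - n, by omega, ?_, by omega⟩
    rw [Nat.add_sub_cancel' h2]
    exact h3
  · intro i hi
    have h0 : Nat.count Nat.Prime (n + W) ≤ Nat.count Nat.Prime n + i := by omega
    exact (Nat.count_le_iff_le_nth Nat.infinite_setOfPred_prime).1 h0
  · intro i hi
    exact Nat.nth_lt_of_lt_count hi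

end Pool.Agent.TH662.CP
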