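import Pool.Agent.TH662.CP.Cell
import Pool.Agent.TH662.CP.Idx

set_option autoImplicit false

/-! CP: blocks of consecutive primes with all positions in one cell. -/

open Finset Filter Topology

namespace Pool.Agent.TH662.CP

open Pool.Agent.H362R2.RQ
open Pool.Agent.H378R2 (yy)
open Pool.Agent.H256R2.SC (ff)
open Pool.Agent.H312R2.RG.C3 (ff_tendsto ff_lower ff_upper ff_small)

theorem block_of (h : StRQ) : ∀ m : ℕ, ∃ K : ℕ, ∃ b c : ℝ, 0 < b ∧ 0 < c ∧
    ∀ q a : ℕ, Squarefree q → a.Coprime q → ∃ X0 : ℝ, ∀ X : ℝ, X0 ≤ X →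
    ∀ (κ : Type) [Fintype κ] [DecidableEq κ] (F : ℕ → κ),
    (Fintype.card κ : ℝ) * q.totient * Real.log (Real.log X) ≤ c * ff X →
    ∃ J : Finset ℕ, X ^ (9 / 10 : ℝ) < K * J.card ∧ ∀ j ∈ J, 1 ≤ j ∧ ∃ n r : ℕ, ∃ y : κ, X < n ∧
      (n : ℝ) ≤ 3 * X ∧ q ∣ n ∧ m ≤ r + 1 ∧ r + 1 ≤ K ∧ Nat.nth Nat.Prime (j - 1) < n ∧
      (n : ℝ) + 3 * (b * ff X) < Nat.nth Nat.Prime (j + r + 1) ∧
      ∀ i ≤ r, ∃ t : ℕ, Nat.nth Nat.Prime (j + i) = n + t ∧ t.Prime ∧ t ≡ a [MOD q] ∧ b * ff X < t ∧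
        (t : ℝ) ≤ 2 * (b * ff X) ∧ F t = y := by
  classical
  intro m
  obtain ⟨K, b, c, hb, hc, hmain⟩ := cell_of h (m + 1)
  refine ⟨K, b, c, hb, hc, ?_⟩
  intro q a hqsf haq
  obtain ⟨X1, hX1⟩ := hmain q a hqsf haq
  rw [← Filter.eventually_atTop]
  filter_upwards [eventually_ge_atTop X1, ff_tendsto.eventually_gt_atTop 0, eventually_ge_atTop (3 : ℝ)]
    with X hXX1 hffpos hX3
  intro κ _ _ F hcard
  obtain ⟨U, hUK, hU, hUF, S, hScard, hS⟩ := hX1 X hXX1 κ F hcard
  set H := b * ff X with hH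
  have hHpos : 0 < H := by positivity
  set W : ℕ := ⌊3 * H⌋₊ + 1 with hW
  have hwin : ∀ n ∈ S, (range W).filter (fun s => (n + s).Prime) = U.filter (fun t => (n + t).Prime) := by
    intro n hn
    obtain ⟨h1, h2, h3, h4, h5⟩ := hS n hn
    ext s
    rw [mem_filter, mem_filter, mem_range]
    constructor
    · rintro ⟨hs, hp⟩
      refine ⟨h5 s ?_ hp, hp⟩
      rw [hW] at hs
      exact (Nat.le_floor_iff (by positivity)).1 (by omega)
    · rintro ⟨hs, hp⟩
      refine ⟨?_, hp⟩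
      rw [hW, Nat.lt_succ_iff]
      apply Nat.le_floor
      have := (hU s hs).2.2.2
      linarith
  have hTle : ∀ n ∈ S, ((range W).filter (fun s => (n + s).Prime)).card ≤ K := by
    intro n hn
    rw [hwin n hn, ← hUK]
    exact Finset.card_filter_le _ _
  have hTge : ∀ n ∈ S, m + 1 ≤ ((range W).filter (fun s => (n + s).Prime)).card := by
    intro n hn
    rw [hwin n hn]
    exact (hS n hn).2.2.2.1
  have hkey : ∀ n ∈ S, ∀ i < ((range W).filter (fun s => (n + s).Prime)).card,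
      ∃ t ∈ U, Nat.nth Nat.Prime (Nat.count Nat.Prime n + i) = n + t := by
    intro n hn i hi
    obtain ⟨s, hs, hp, he⟩ := (idx_of n W).1 i hi
    refine ⟨s, ?_, he⟩
    have : s ∈ (range W).filter (fun s => (n + s).Prime) := by
      rw [mem_filter, mem_range]; exact ⟨hs, hp⟩
    rw [hwin n hn, mem_filter] at this
    exact this.1
  refine ⟨S.image (fun n => Nat.count Nat.Prime n), ?_, ?_⟩
  · have h1 : S.card ≤ K * (S.image (fun n => Nat.count Nat.Prime n)).card := by
      apply Finset.card_le_mul_card_image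
      intro j hj
      have h2 : (S.filter (fun n => Nat.count Nat.Prime n = j)) ⊆ U.image (fun t => Nat.nth Nat.Prime j - t) := by
        intro n hn
        rw [mem_filter] at hn
        obtain ⟨t, ht, he⟩ := hkey n hn.1 0 (by have := hTge n hn.1; omega)
        rw [mem_image]
        refine ⟨t, ht, ?_⟩
        rw [add_zero, hn.2] at he
        omega
      refine (Finset.card_le_card h2).trans ?_
      rw [← hUK]
      exact Finset.card_image_le
    have h2 : (S.card : ℝ) ≤ K * (S.image (fun n => Nat.count Nat.Prime n)).card := by exact_mod_cast h1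
    exact hScard.trans_le h2
  · intro j hj
    rw [mem_image] at hj
    obtain ⟨n, hn, hnj⟩ := hj
    obtain ⟨h1, h2, h3, h4, h5⟩ := hS n hn
    have hUne : ∃ t0, t0 ∈ U := by
      obtain ⟨t, ht, -⟩ := hkey n hn 0 (by have := hTge n hn; omega)
      exact ⟨t, ht⟩
    obtain ⟨t0, ht0⟩ := hUne
    have hj1 : 1 ≤ j := by
      rw [← hnj]
      have h6 : Nat.count Nat.Prime 3 ≤ Nat.count Nat.Prime n := by
        apply Nat.count_monotone
        have : (3 : ℝ) ≤ n := by linarith
        exact_mod_cast this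
      have h7 : Nat.count Nat.Prime 3 = 1 := by decide
      omega
    obtain ⟨r, hr⟩ : ∃ r, ((range W).filter (fun s => (n + s).Prime)).card = r + 1 :=
      ⟨((range W).filter (fun s => (n + s).Prime)).card - 1, by have := hTge n hn; omega⟩
    refine ⟨hj1, n, r, F t0, h1, h2, h3, ?_, ?_, ?_, ?_, ?_⟩
    · have := hTge n hn
      omega
    · rw [← hr]; exact hTle n hn
    · exact (idx_of n W).2.2 (j - 1) (by omega)
    · have h6 := (idx_of n W).2.1 (r + 1) (by omega)
      rw [hnj] at h6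
      have h7 : (n : ℝ) + W ≤ Nat.nth Nat.Prime (j + (r + 1)) := by exact_mod_cast h6
      have h8 : 3 * H < W := by
        rw [hW]; push_cast; exact Nat.lt_floor_add_one _
      rw [add_assoc]
      linarith
    · intro i hi
      obtain ⟨t, ht, he⟩ := hkey n hn i (by omega)
      rw [hnj] at he
      obtain ⟨g1, g2, g3, g4⟩ := hU t ht
      exact ⟨t, he, g1, g2, g3, g4, hUF t ht t0 ht0⟩

end Pool.Agent.TH662.CP
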