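import Pool.Agent.H312R2.RG.C3a
import Pool.Agent.H378R2.M7m

set_option autoImplicit false

/-! CP: counting primes of a residue class in dyadic intervals. -/

open Finset Filter Topology

namespace Pool.Agent.TH662.CP

/-- `2 sqrt(2y) log(2y) ≤ e y` eventually -/
theorem ev_sqrt_log (e : ℝ) (he : 0 < e) :
    ∀ᶠ y : ℝ in atTop, 2 * Real.sqrt (2 * y) * Real.log (2 * y) ≤ e * y := by
  have e1 := (isLittleO_log_rpow_atTop (show (0 : ℝ) < 1 / 4 by norm_num)).def (show (0 : ℝ) < 1 by norm_num)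
  have e2 : Tendsto (fun y : ℝ => 2 * y) atTop atTop := tendsto_id.const_mul_atTop (by norm_num)
  have e3 := e2.eventually e1
  have e4 : ∀ᶠ x : ℝ in atTop, 4 / e ≤ x ^ (1 / 4 : ℝ) :=
    (tendsto_rpow_atTop (show (0 : ℝ) < 1 / 4 by norm_num)).eventually_ge_atTop _
  filter_upwards [e3, e2.eventually e4, e2.eventually_ge_atTop 1, eventually_gt_atTop (0 : ℝ)] with y h7 h8 h9 h10
  set x := 2 * y with hx
  rw [one_mul, Real.norm_of_nonneg (Real.log_nonneg h9), Real.norm_of_nonneg (Real.rpow_nonneg (by linarith) _)] at h7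
  set w := x ^ (1 / 4 : ℝ) with hw
  have hw0 : 0 ≤ w := Real.rpow_nonneg (by linarith) _
  have hw4 : w ^ 4 = x := by
    rw [hw, ← Real.rpow_natCast, ← Real.rpow_mul (by linarith)]; norm_num
  have hsq : Real.sqrt x = w ^ 2 := by
    rw [← hw4, show w ^ 4 = (w ^ 2) ^ 2 by ring, Real.sqrt_sq (by positivity)]
  rw [hsq]
  rw [div_le_iff₀ he] at h8
  have h11 : 2 * w ^ 2 * Real.log x ≤ 2 * w ^ 3 := by
    calc 2 * w ^ 2 * Real.log x ≤ 2 * w ^ 2 * w := mul_le_mul_of_nonneg_left h7 (by positivity)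
      _ = _ := by ring
  refine h11.trans ?_
  have h12 : 4 * w ^ 3 ≤ (w * e) * w ^ 3 := mul_le_mul_of_nonneg_right h8 (by positivity)
  have h13 : (w * e) * w ^ 3 = e * x := by rw [← hw4]; ring
  rw [h13, hx] at h12
  linarith

/-- at least `y / (4 φ(q) log y)` primes `≡ a (mod q)` in `(y, 2 y]` -/
theorem count_primes_mod (q : ℕ) (hq : 0 < q) (a : ℕ) (ha : a.Coprime q) :
    ∀ᶠ y : ℝ in atTop, y / (4 * q.totient * Real.log y) ≤
      (((Finset.Ioc ⌊y⌋₊ ⌊2 * y⌋₊).filter (fun p => p.Prime ∧ p ≡ a [MOD q])).card : ℝ) := by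
  classical
  haveI : NeZero q := ⟨hq.ne'⟩
  have hu : IsUnit (a : ZMod q) := (ZMod.isUnit_iff_coprime a q).2 ha
  set F : ℝ → ℝ := fun x => ∑ k ∈ Finset.Icc 1 ⌊x⌋₊,
      ArithmeticFunction.vonMangoldt.residueClass (a : ZMod q) k with hF
  have h1 : Tendsto (fun x : ℝ => F x / x) atTop (𝓝 ((q.totient : ℝ)⁻¹)) :=
    Pool.Agent.Helper923.PNT.pnt_residueClass hu
  have hφ0 : (0 : ℝ) < q.totient := by exact_mod_cast Nat.totient_pos.2 hq
  have hφ : (0 : ℝ) < (q.totient : ℝ)⁻¹ := by positivity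
  have h2 : Tendsto (fun y : ℝ => F (2 * y) / y) atTop (𝓝 (2 * (q.totient : ℝ)⁻¹)) := by
    have h3 : Tendsto (fun y : ℝ => 2 * y) atTop atTop :=
      tendsto_id.const_mul_atTop (by norm_num)
    have h4 := (h1.comp h3).const_mul 2
    refine h4.congr' ?_
    filter_upwards [eventually_gt_atTop 0] with y hy
    simp only [Function.comp]
    field_simp
  have h5 := (h2.sub h1).eventually (lt_mem_nhds (show 3 / 4 * (q.totient : ℝ)⁻¹ <
    2 * (q.totient : ℝ)⁻¹ - (q.totient : ℝ)⁻¹ by linarith))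
  have h6 := ev_sqrt_log ((q.totient : ℝ)⁻¹ / 4) (by positivity)
  filter_upwards [h5, h6, eventually_ge_atTop (2 : ℝ)] with y hy hy6 hy1
  have hy0 : 0 < y := by linarith
  have hlogy : 0 < Real.log y := Real.log_pos (by linarith)
  set x := 2 * y with hx
  have hyx : y ≤ x := by rw [hx]; linarith
  have hfl : ⌊y⌋₊ ≤ ⌊x⌋₊ := Nat.floor_le_floor hyx
  have hx0 : 0 < x := by linarith
  have hlogx : Real.log x ≤ 2 * Real.log y := by
    rw [hx, Real.log_mul (by norm_num) (by linarith)]
    have : Real.log 2 ≤ Real.log y := Real.log_le_log (by norm_num) hy1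
    linarith
  have hlogx0 : 0 < Real.log x := Real.log_pos (by linarith)
  set P := (Finset.Ioc ⌊y⌋₊ ⌊x⌋₊).filter (fun p => p.Prime ∧ p ≡ a [MOD q]) with hP
  have h7 : F x - F y ≤ P.card * Real.log x + 2 * Real.sqrt x * Real.log x := by
    have h8 : F x - F y = ∑ k ∈ Finset.Ioc ⌊y⌋₊ ⌊x⌋₊, ArithmeticFunction.vonMangoldt.residueClass (a : ZMod q) k := by
      have h9 : Finset.Icc 1 ⌊x⌋₊ = Finset.Icc 1 ⌊y⌋₊ ∪ Finset.Ioc ⌊y⌋₊ ⌊x⌋₊ := by
        ext k
        rw [mem_union, mem_Icc, mem_Icc, mem_Ioc]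
        omega
      have h10 : Disjoint (Finset.Icc 1 ⌊y⌋₊) (Finset.Ioc ⌊y⌋₊ ⌊x⌋₊) := by
        rw [Finset.disjoint_left]
        intro k hk hk'
        rw [mem_Icc] at hk
        rw [mem_Ioc] at hk'
        omega
      simp only [hF]
      rw [h9, Finset.sum_union h10]
      ring
    rw [h8]
    have h11 : ∀ k ∈ Finset.Ioc ⌊y⌋₊ ⌊x⌋₊, ArithmeticFunction.vonMangoldt.residueClass (a : ZMod q) k ≤
        (if k.Prime ∧ k ≡ a [MOD q] then Real.log x else 0) +
        if k.Prime then 0 else ArithmeticFunction.vonMangoldt k := by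
      intro k hk
      rw [mem_Ioc] at hk
      by_cases hp : k.Prime
      · rw [if_pos hp, add_zero]
        by_cases hka : k ≡ a [MOD q]
        · rw [if_pos ⟨hp, hka⟩]
          refine (ArithmeticFunction.vonMangoldt.residueClass_le _ k).trans ?_
          rw [ArithmeticFunction.vonMangoldt_apply_prime hp]
          have h17 : (k : ℝ) ≤ x := (Nat.le_floor_iff (by linarith)).1 hk.2
          exact Real.log_le_log (by exact_mod_cast hp.pos) h17
        · rw [if_neg (fun h => hka h.2)]
          have h12 : ¬ ((k : ZMod q) = (a : ZMod q)) := fun h13 =>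
            hka ((ZMod.natCast_eq_natCast_iff k a q).1 h13)
          have : ArithmeticFunction.vonMangoldt.residueClass (a : ZMod q) k = 0 := by
            unfold ArithmeticFunction.vonMangoldt.residueClass
            rw [Set.indicator_of_notMem]
            exact h12
          rw [this]
      · rw [if_neg (fun h => hp h.1), if_neg hp, zero_add]
        exact ArithmeticFunction.vonMangoldt.residueClass_le _ k
    refine (Finset.sum_le_sum h11).trans ?_
    rw [Finset.sum_add_distrib]
    apply add_le_add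
    · rw [← Finset.sum_filter, Finset.sum_const, nsmul_eq_mul]
    · refine le_trans ?_ (Pool.Agent.H378R2.sum_nonprime_le x (by linarith))
      rw [Finset.sum_filter]
      have h12 : ∀ k, (if k.Prime then (0 : ℝ) else ArithmeticFunction.vonMangoldt k) =
          if ¬ k.Prime then ArithmeticFunction.vonMangoldt k else 0 := by
        intro k
        by_cases h : k.Prime
        · rw [if_pos h, if_neg (not_not.2 h)]
        · rw [if_neg h, if_pos h]
      simp_rw [h12]
      apply Finset.sum_le_sum_of_subset_of_nonneg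
      · intro k hk
        rw [mem_Ioc] at hk
        rw [mem_Icc]
        omega
      · intro k _ _
        split_ifs
        · exact le_rfl
        · exact ArithmeticFunction.vonMangoldt_nonneg
  have h8 : 3 / 4 * (q.totient : ℝ)⁻¹ * y < F x - F y := by
    have h9 : 3 / 4 * (q.totient : ℝ)⁻¹ < (F x - F y) / y := by
      rw [sub_div]; exact hy
    rwa [lt_div_iff₀ hy0] at h9
  have h9 : (q.totient : ℝ)⁻¹ / 2 * y ≤ P.card * (2 * Real.log y) := by
    have h10 : (P.card : ℝ) * Real.log x ≤ P.card * (2 * Real.log y) :=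
      mul_le_mul_of_nonneg_left hlogx (Nat.cast_nonneg _)
    linarith
  rw [div_le_iff₀ (by positivity)]
  have h10 := mul_le_mul_of_nonneg_left h9 (show (0 : ℝ) ≤ 2 * q.totient by positivity)
  have h11 : 2 * (q.totient : ℝ) * ((q.totient : ℝ)⁻¹ / 2 * y) = y := by field_simp
  rw [h11] at h10
  calc y ≤ 2 * q.totient * (P.card * (2 * Real.log y)) := h10
    _ = P.card * (4 * q.totient * Real.log y) := by ring

end Pool.Agent.TH662.CP
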