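import Pool.Agent.H362R2.RQ.Place
import Pool.Agent.TH662.CP.Count

set_option autoImplicit false

/-! CP: clusters of primes inside record windows, all positions in one cell of a partition with many cells. -/

open Finset Filter Topology

namespace Pool.Agent.TH662.CP

open Pool.Agent.H362R2.RQ
open Pool.Agent.H378R2 (yy)
open Pool.Agent.H256R2.SC (ff)
open Pool.Agent.H312R2.RG.C3 (ff_tendsto ff_lower ff_upper ff_small)

/-- `log (b ff X) ≤ 5 log log X`, and `log log X > 0` -/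
theorem ev_log_ff (b : ℝ) (hb : 0 < b) : ∀ᶠ X : ℝ in atTop,
    0 < Real.log (b * ff X) ∧ Real.log (b * ff X) ≤ 5 * Real.log (Real.log X) ∧ 0 < Real.log (Real.log X) := by
  have h1 : Tendsto (fun X : ℝ => b * ff X) atTop atTop := ff_tendsto.const_mul_atTop hb
  filter_upwards [ff_upper, Real.tendsto_log_atTop.eventually_ge_atTop b,
    Real.tendsto_log_atTop.eventually_ge_atTop 2, h1.eventually_ge_atTop 2,
    ff_tendsto.eventually_gt_atTop 0] with X h2 h3 h4 h5 h6
  refine ⟨Real.log_pos (by linarith), ?_, Real.log_pos (by linarith)⟩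
  have h7 : b * ff X ≤ Real.log X ^ 5 := by
    calc b * ff X ≤ Real.log X * Real.log X ^ 4 := mul_le_mul h3 h2 h6.le (by linarith)
      _ = Real.log X ^ 5 := by ring
  calc Real.log (b * ff X) ≤ Real.log (Real.log X ^ 5) := Real.log_le_log (by linarith) h7
    _ = 5 * Real.log (Real.log X) := by rw [Real.log_pow]; norm_num

/-- the positions can be chosen in one cell -/
theorem cell_of (h : StRQ) : ∀ m : ℕ, ∃ K : ℕ, ∃ b c : ℝ, 0 < b ∧ 0 < c ∧
    ∀ q a : ℕ, Squarefree q → a.Coprime q → ∃ X0 : ℝ, ∀ X : ℝ, X0 ≤ X →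
    ∀ (κ : Type) [Fintype κ] [DecidableEq κ] (F : ℕ → κ),
    (Fintype.card κ : ℝ) * q.totient * Real.log (Real.log X) ≤ c * ff X →
    ∃ U : Finset ℕ, U.card = K ∧
      (∀ t ∈ U, t.Prime ∧ t ≡ a [MOD q] ∧ b * ff X < t ∧ (t : ℝ) ≤ 2 * (b * ff X)) ∧
      (∀ t ∈ U, ∀ t' ∈ U, F t = F t') ∧
      ∃ S : Finset ℕ, X ^ (9 / 10 : ℝ) < S.card ∧ ∀ n ∈ S, X < n ∧ (n : ℝ) ≤ 3 * X ∧ q ∣ n ∧
        m ≤ (U.filter (fun t => (n + t).Prime)).card ∧
        ∀ s : ℕ, (s : ℝ) ≤ 3 * (b * ff X) → (n + s).Prime → s ∈ U := by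
  classical
  obtain ⟨η, hη, hmain⟩ := h
  intro m
  obtain ⟨M, hM1, hM⟩ : ∃ M : ℕ, 1 ≤ M ∧ (m : ℝ) ≤ η * M := by
    obtain ⟨M0, hM0⟩ := exists_nat_ge ((m : ℝ) / η)
    refine ⟨M0 + 1, by omega, ?_⟩
    rw [div_le_iff₀ hη] at hM0
    push_cast
    nlinarith
  obtain ⟨K, hMK, c0, hc0, hX⟩ := hmain M hM1
  have hK0 : 0 < K := by omega
  have hKr : (0 : ℝ) < K := by exact_mod_cast hK0
  obtain ⟨b, hb⟩ : ∃ b : ℝ, b = c0 / 3 := ⟨_, rfl⟩
  have hbpos : 0 < b := by rw [hb]; positivity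
  have hbc : 3 * b = c0 := by rw [hb]; ring
  refine ⟨K, b, b / (20 * K), hbpos, by positivity, ?_⟩
  intro q a hqsf haq
  have hq0 : 0 < q := Nat.pos_of_ne_zero hqsf.ne_zero
  have hφ0 : (0 : ℝ) < q.totient := by exact_mod_cast Nat.totient_pos.2 hq0
  obtain ⟨X1, hX1⟩ := hX q
  have htend : Tendsto (fun X : ℝ => b * ff X) atTop atTop := ff_tendsto.const_mul_atTop hbpos
  have hllt : Tendsto (fun X : ℝ => Real.log (Real.log X)) atTop atTop :=
    Real.tendsto_log_atTop.comp Real.tendsto_log_atTop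
  rw [← Filter.eventually_atTop]
  filter_upwards [eventually_ge_atTop X1, htend.eventually (count_primes_mod q hq0 a haq),
    ev_log_ff b hbpos, ff_lower, hllt.eventually_ge_atTop (1 / b), Real.tendsto_log_atTop.eventually_ge_atTop 1,
    eventually_gt_atTop (0 : ℝ), ff_tendsto.eventually_gt_atTop 0]
    with X hXX1 hcount hlog hfl hll hl1 hXpos hffpos
  intro κ _ _ F hcard
  set H := b * ff X with hH
  obtain ⟨hlH0, hlH, hll0⟩ := hlog
  have hHpos : 0 < H := by positivity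
  set P := (Finset.Ioc ⌊H⌋₊ ⌊2 * H⌋₊).filter (fun p => p.Prime ∧ p ≡ a [MOD q]) with hP
  have hPmem : ∀ p ∈ P, p.Prime ∧ p ≡ a [MOD q] ∧ H < p ∧ (p : ℝ) ≤ 2 * H := by
    intro p hp
    rw [hP, mem_filter, mem_Ioc] at hp
    exact ⟨hp.2.1, hp.2.2, (Nat.floor_lt hHpos.le).1 hp.1.1, (Nat.le_floor_iff (by linarith)).1 hp.1.2⟩
  -- the pigeonhole principle
  have hpig : (Fintype.card κ) * K ≤ P.card := by
    have h1 : ((Fintype.card κ : ℕ) : ℝ) * K ≤ P.card := by
      refine le_trans ?_ hcount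
      rw [le_div_iff₀ (by positivity)]
      have h2 : b / (20 * K) * ff X = H / (20 * K) := by rw [hH]; ring
      rw [h2, le_div_iff₀ (by positivity)] at hcard
      have h3 : (Fintype.card κ : ℝ) * K * (4 * q.totient * Real.log H) ≤
          (Fintype.card κ : ℝ) * K * (4 * q.totient * (5 * Real.log (Real.log X))) := by
        gcongr
      refine h3.trans (le_trans (le_of_eq ?_) hcard)
      ring
    exact_mod_cast h1
  have hPne : P.Nonempty ∨ Fintype.card κ = 0 := by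
    rcases Nat.eq_zero_or_pos (Fintype.card κ) with h0 | h0
    · exact Or.inr h0
    · left
      rw [← Finset.card_pos]
      have : 0 < Fintype.card κ * K := Nat.mul_pos h0 hK0
      omega
  have hne : Nonempty κ := ⟨F 0⟩
  obtain ⟨y, -, hy⟩ := Finset.exists_le_card_fiber_of_mul_le_card_of_maps_to (s := P) (t := (univ : Finset κ)) (f := F)
    (n := K) (fun x _ => mem_univ _) Finset.univ_nonempty (by rw [Finset.card_univ]; exact hpig)
  obtain ⟨U, hUsub, hUcard⟩ := Finset.exists_subset_card_eq hy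
  have hUmem : ∀ t ∈ U, (t.Prime ∧ t ≡ a [MOD q] ∧ H < t ∧ (t : ℝ) ≤ 2 * H) ∧ F t = y := by
    intro t ht
    have h1 := hUsub ht
    rw [mem_filter] at h1
    exact ⟨hPmem t h1.1, h1.2⟩
  refine ⟨U, hUcard, fun t ht => (hUmem t ht).1, fun t ht t' ht' => (hUmem t ht).2.trans (hUmem t' ht').2.symm, ?_⟩
  set e := U.orderEmbOfFin hUcard with he
  set tt : Fin K → ℕ := fun j => e j with htt
  have httU : ∀ j, tt j ∈ U := fun j => Finset.orderEmbOfFin_mem U hUcard j
  have httinj : Function.Injective tt := e.injective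
  have httsurj : ∀ t ∈ U, ∃ j, tt j = t := by
    intro t ht
    have h1 : t ∈ Set.range e := by
      rw [he, Finset.range_orderEmbOfFin]; exact ht
    exact h1
  have hyy : (yy X : ℝ) < H := by
    have h1 : (yy X : ℝ) ≤ Real.log X / 1000 := Nat.floor_le (by positivity)
    have h2 : Real.log X ≤ H := by
      rw [div_le_iff₀ hbpos] at hll
      calc Real.log X = Real.log X * 1 := (mul_one _).symm
        _ ≤ Real.log X * (Real.log (Real.log X) * b) := mul_le_mul_of_nonneg_left hll (by linarith)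
        _ = b * (Real.log X * Real.log (Real.log X)) := by ring
        _ ≤ b * ff X := mul_le_mul_of_nonneg_left hfl hbpos.le
    linarith
  have htts : ∀ j, (tt j).Prime ∧ yy X < tt j ∧ (tt j : ℝ) ≤ c0 * ff X := by
    intro j
    obtain ⟨⟨h1, h2, h3, h4⟩, -⟩ := hUmem _ (httU j)
    refine ⟨h1, ?_, ?_⟩
    · have : (yy X : ℝ) < tt j := hyy.trans h3
      exact_mod_cast this
    · have h5 : c0 * ff X = 3 * H := by rw [hH, ← hbc]; ring
      rw [h5]; linarith
  have hM0 : 0 < M := hM1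
  set col := cmod K M hM0 with hcol
  set S := (Finset.Icc 1 ⌊3 * X⌋₊).filter (fun n : ℕ => X < n ∧ q ∣ n ∧
    m ≤ (U.filter (fun t => (n + t).Prime)).card ∧
        ∀ s : ℕ, (s : ℝ) ≤ 3 * (b * ff X) → (n + s).Prime → s ∈ U) with hS
  refine ⟨S, ?_, ?_⟩
  · by_contra hcon
    push Not at hcon
    obtain ⟨n, hn1, hn2, hn3, ⟨D, hD1, hD2⟩, hn4, hn5⟩ := hX1 X hXX1 tt httinj htts col (fib_cmod K M hM0 hMK) S hcon
    apply hn3
    rw [hS, mem_filter, mem_Icc]
    have hn0 : 1 ≤ n := by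
      have h1 : (0 : ℝ) < n := by linarith
      exact_mod_cast h1
    refine ⟨⟨hn0, Nat.le_floor hn2⟩, hn1, ?_, ?_, ?_⟩
    · exact dvd_of_primes q n hqsf fun p hp hpq => hn5 p hp (Nat.le_of_dvd hq0 hpq)
    · have h1 : m ≤ D.card := by
        have : (m : ℝ) ≤ D.card := hM.trans hD1
        exact_mod_cast this
      refine h1.trans ?_
      haveI : Nonempty (Fin K) := ⟨⟨0, hK0⟩⟩
      choose! J hJ using hD2
      apply Finset.card_le_card_of_injOn (fun d => tt (J d))
      · intro d hd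
        simp only [coe_filter, Set.mem_ofPred_eq]
        exact ⟨httU _, (hJ d hd).2⟩
      · intro d hd d' hd' hdd
        have h2 := httinj hdd
        rw [← (hJ d hd).1, ← (hJ d' hd').1, h2]
    · intro s hs hp
      obtain ⟨j, hj⟩ := hn4 s (by
        have : c0 * ff X = 3 * (b * ff X) := by rw [← hbc]; ring
        rw [this]; exact hs) hp
      rw [hj]
      exact httU j
  · intro n hn
    rw [hS, mem_filter, mem_Icc] at hn
    exact ⟨hn.2.1, (Nat.le_floor_iff (by linarith)).1 hn.1.2, hn.2.2.1, hn.2.2.2.1, hn.2.2.2.2⟩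

end Pool.Agent.TH662.CP
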